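import Pool.Agent.helper80.SV.Spec

set_option autoImplicit false
set_option linter.unusedSectionVars false

/-!
# Project sv, module COR: the core
-/

namespace Pool.Agent.SV

open MvPolynomial Module

theorem COR_and (hGAL : GAL_stmt) {W : Type} [AddCommGroup W] [Module ℂ W] {C C' : W → Prop}
    (h : Gen C) (h' : Gen C') : Gen (fun Z => C Z ∧ C' Z) := by
  have h1 := hGAL (W := W) (I := Bool) (fun b Z => if b then C Z else C' Z) (by
    intro b
    cases b
    · simpa using h'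
    · simpa using h)
  have h2 : (fun Z : W => ∀ b : Bool, if b = true then C Z else C' Z) =
      fun Z => C Z ∧ C' Z := by
    funext Z
    apply propext
    constructor
    · intro h3
      exact ⟨by simpa using h3 true, by simpa using h3 false⟩
    · rintro ⟨h3, h4⟩ b
      cases b
      · simpa using h4
      · simpa using h3
  rw [h2] at h1
  exact h1

section

variable {ι κ : Type} [Fintype ι] [DecidableEq ι] [Fintype κ] [DecidableEq κ]

/-- the parameter space -/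
abbrev COR_W (ι : Type) (u δ r : ℕ) : Type :=
  (Fin u → ι → ℂ) × (Fin δ → ι → ℂ) × (Fin r → ι → ℂ)

/-- the conditions of the trace -/
noncomputable def COR_B1 (c : ι → κ) (A : Finset ι) (d : κ → ℕ) (u δ r : ℕ)
    (Z : COR_W ι u δ r) : ↥(Sec c A d) →ₗ[ℂ] ((Fin u × ι) ⊕ Fin δ → ℂ) :=
  LinearMap.pi (fun j => match j with
    | Sum.inl j => (LinearMap.proj j.2) ∘ₗ gradL A (cut A (Z.1 j.1)) ∘ₗ (Sec c A d).subtype
    | Sum.inr i => evL (cut A (Z.2.1 i)) ∘ₗ (Sec c A d).subtype)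

theorem COR_B1_inl (c : ι → κ) (A : Finset ι) (d : κ → ℕ) (u δ r : ℕ)
    (Z : COR_W ι u δ r) (v : ↥(Sec c A d)) (j : Fin u × ι) :
    COR_B1 c A d u δ r Z v (Sum.inl j) = gradL A (cut A (Z.1 j.1)) (v : MvPolynomial ι ℂ) j.2 := rfl

theorem COR_B1_inr (c : ι → κ) (A : Finset ι) (d : κ → ℕ) (u δ r : ℕ)
    (Z : COR_W ι u δ r) (v : ↥(Sec c A d)) (i : Fin δ) :
    COR_B1 c A d u δ r Z v (Sum.inr i) = eval (cut A (Z.2.1 i)) (v : MvPolynomial ι ℂ) := by
  change evL (cut A (Z.2.1 i)) (v : MvPolynomial ι ℂ) = _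
  rw [evL_apply]

/-- the conditions of the residual system -/
noncomputable def COR_B2 (c : ι → κ) (A : Finset ι) (d : κ → ℕ) (u δ r : ℕ)
    (Z : COR_W ι u δ r) :
    ↥(Sec c Finset.univ d) →ₗ[ℂ] ((Fin r × ι) ⊕ (Fin u ⊕ (Fin δ × ι)) → ℂ) :=
  LinearMap.pi (fun j => match j with
    | Sum.inl j => (LinearMap.proj j.2) ∘ₗ gradL Finset.univ (Z.2.2 j.1) ∘ₗ
        (Sec c Finset.univ d).subtype
    | Sum.inr (Sum.inl i) => evL (cut A (Z.1 i)) ∘ₗ (Sec c Finset.univ d).subtype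
    | Sum.inr (Sum.inr j) => (LinearMap.proj j.2) ∘ₗ gradL A (cut A (Z.2.1 j.1)) ∘ₗ
        (Sec c Finset.univ d).subtype)

theorem COR_B2_inl (c : ι → κ) (A : Finset ι) (d : κ → ℕ) (u δ r : ℕ)
    (Z : COR_W ι u δ r) (v : ↥(Sec c Finset.univ d)) (j : Fin r × ι) :
    COR_B2 c A d u δ r Z v (Sum.inl j) =
      gradL Finset.univ (Z.2.2 j.1) (v : MvPolynomial ι ℂ) j.2 := rfl

theorem COR_B2_inrl (c : ι → κ) (A : Finset ι) (d : κ → ℕ) (u δ r : ℕ)
    (Z : COR_W ι u δ r) (v : ↥(Sec c Finset.univ d)) (i : Fin u) :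
    COR_B2 c A d u δ r Z v (Sum.inr (Sum.inl i)) =
      eval (cut A (Z.1 i)) (v : MvPolynomial ι ℂ) := by
  change evL (cut A (Z.1 i)) (v : MvPolynomial ι ℂ) = _
  rw [evL_apply]

theorem COR_B2_inrr (c : ι → κ) (A : Finset ι) (d : κ → ℕ) (u δ r : ℕ)
    (Z : COR_W ι u δ r) (v : ↥(Sec c Finset.univ d)) (j : Fin δ × ι) :
    COR_B2 c A d u δ r Z v (Sum.inr (Sum.inr j)) =
      gradL A (cut A (Z.2.1 j.1)) (v : MvPolynomial ι ℂ) j.2 := rfl

/-- coordinates of a point moving on a line -/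
theorem COR_line (x y : ℂ) : PolyFun (fun t => x + t * (y - x)) :=
  (PolyFun.const x).add (PolyFun.id.mul (PolyFun.const (y - x)))

theorem COR_cut (A : Finset ι) (x y : ι → ℂ) (i : ι) :
    PolyFun (fun t => cut A (x + t • (y - x)) i) := by
  by_cases h : i ∈ A
  · simpa [cut, h] using COR_line (x i) (y i)
  · simpa [cut, h] using PolyFun.const 0

theorem COR_ev (hPLY : PLY_stmt) (A : Finset ι) (x y : ι → ℂ) (f : MvPolynomial ι ℂ) :
    PolyFun (fun t => eval (cut A (x + t • (y - x))) f) := by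
  have h := (hPLY (ι := ι) (κ := ι)).1 (fun i t => cut A (x + t • (y - x)) i)
    (fun i => COR_cut A x y i) f
  exact h

theorem COR_gr (hPLY : PLY_stmt) (A : Finset ι) (x y : ι → ℂ) (f : MvPolynomial ι ℂ) (i : ι) :
    PolyFun (fun t => gradL A (cut A (x + t • (y - x))) f i) := by
  by_cases h : i ∈ A
  · have h1 := COR_ev hPLY A x y (pderiv i f)
    have h2 : (fun t : ℂ => gradL A (cut A (x + t • (y - x))) f i) =
        fun t => eval (cut A (x + t • (y - x))) (pderiv i f) := by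
      funext t
      rw [gradL_apply, if_pos h]
    rw [h2]
    exact h1
  · have h2 : (fun t : ℂ => gradL A (cut A (x + t • (y - x))) f i) = fun _ => 0 := by
      funext t
      rw [gradL_apply, if_neg h]
    rw [h2]
    exact PolyFun.const 0

theorem COR_cut_univ (x : ι → ℂ) : cut Finset.univ x = x := by
  funext i
  simp [cut]

theorem COR_gru (hPLY : PLY_stmt) (x y : ι → ℂ) (f : MvPolynomial ι ℂ) (i : ι) :
    PolyFun (fun t => gradL Finset.univ (x + t • (y - x)) f i) := by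
  have h := COR_gr hPLY Finset.univ x y f i
  simpa only [COR_cut_univ] using h

theorem COR_poly1 (hPLY : PLY_stmt) (c : ι → κ) (A : Finset ι) (d : κ → ℕ) (u δ r : ℕ)
    (Z₀ Z₁ : COR_W ι u δ r) (v : ↥(Sec c A d)) (j : (Fin u × ι) ⊕ Fin δ) :
    PolyFun (fun t : ℂ => COR_B1 c A d u δ r (Z₀ + t • (Z₁ - Z₀)) v j) := by
  rcases j with j | i
  · have h := COR_gr hPLY A (Z₀.1 j.1) (Z₁.1 j.1) (v : MvPolynomial ι ℂ) j.2
    exact h
  · have h := COR_ev hPLY A (Z₀.2.1 i) (Z₁.2.1 i) (v : MvPolynomial ι ℂ)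
    have h2 : (fun t : ℂ => COR_B1 c A d u δ r (Z₀ + t • (Z₁ - Z₀)) v (Sum.inr i)) =
        fun t => eval (cut A (Z₀.2.1 i + t • (Z₁.2.1 i - Z₀.2.1 i))) (v : MvPolynomial ι ℂ) := by
      funext t
      rw [COR_B1_inr]
      rfl
    rw [h2]
    exact h

theorem COR_poly2 (hPLY : PLY_stmt) (c : ι → κ) (A : Finset ι) (d : κ → ℕ) (u δ r : ℕ)
    (Z₀ Z₁ : COR_W ι u δ r) (v : ↥(Sec c Finset.univ d))
    (j : (Fin r × ι) ⊕ (Fin u ⊕ (Fin δ × ι))) :
    PolyFun (fun t : ℂ => COR_B2 c A d u δ r (Z₀ + t • (Z₁ - Z₀)) v j) := by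
  rcases j with j | i | j
  · exact COR_gru hPLY (Z₀.2.2 j.1) (Z₁.2.2 j.1) (v : MvPolynomial ι ℂ) j.2
  · have h := COR_ev hPLY A (Z₀.1 i) (Z₁.1 i) (v : MvPolynomial ι ℂ)
    have h2 : (fun t : ℂ => COR_B2 c A d u δ r (Z₀ + t • (Z₁ - Z₀)) v (Sum.inr (Sum.inl i))) =
        fun t => eval (cut A (Z₀.1 i + t • (Z₁.1 i - Z₀.1 i))) (v : MvPolynomial ι ℂ) := by
      funext t
      rw [COR_B2_inrl]
      rfl
    rw [h2]
    exact h
  · exact COR_gr hPLY A (Z₀.2.1 j.1) (Z₁.2.1 j.1) (v : MvPolynomial ι ℂ) j.2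

theorem COR_ker1 (c : ι → κ) (A : Finset ι) (d : κ → ℕ) (u δ r : ℕ) (Z : COR_W ι u δ r) :
    finrank ℂ (LinearMap.ker (COR_B1 c A d u δ r Z)) ≤ 0 ↔
      ∀ g ∈ Sec c A d, (∀ j, gradL A (cut A (Z.1 j)) g = 0) →
        (∀ i, eval (cut A (Z.2.1 i)) g = 0) → g = 0 := by
  rw [Nat.le_zero, Submodule.finrank_eq_zero, LinearMap.ker_eq_bot']
  constructor
  · intro h g hg h1 h2
    have h3 := h ⟨g, hg⟩ (by
      funext j
      rcases j with j | i
      · rw [COR_B1_inl]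
        exact congrFun (h1 j.1) j.2
      · rw [COR_B1_inr]
        exact h2 i)
    exact congrArg Subtype.val h3
  · intro h g hg
    apply Subtype.ext
    apply h g.1 g.2
    · intro j
      funext i
      have h1 := congrFun hg (Sum.inl (j, i))
      rw [COR_B1_inl] at h1
      exact h1
    · intro i
      have h1 := congrFun hg (Sum.inr i)
      rw [COR_B1_inr] at h1
      exact h1

theorem COR_ker2 (c : ι → κ) (z : ι) (d : κ → ℕ) (u δ r : ℕ) (Z : COR_W ι u δ r) :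
    finrank ℂ (LinearMap.ker (COR_B2 c (Finset.univ.erase z) d u δ r Z)) =
      finrank ℂ ↥(Resid c z d Z.1 Z.2.1 Z.2.2) := by
  have h1 : Resid c z d Z.1 Z.2.1 Z.2.2 =
      (LinearMap.ker (COR_B2 c (Finset.univ.erase z) d u δ r Z)).map
        (Sec c Finset.univ d).subtype := by
    ext g
    rw [Submodule.mem_map]
    simp only [Resid, Sng, Submodule.mem_inf, Submodule.mem_iInf, LinearMap.mem_ker, evL_apply]
    constructor
    · rintro ⟨⟨h1, h2⟩, h3, h4⟩
      refine ⟨⟨g, h1⟩, ?_, rfl⟩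
      funext j
      rcases j with j | i | j
      · rw [COR_B2_inl]
        exact congrFun (h2 j.1) j.2
      · rw [COR_B2_inrl]
        exact h3 i
      · rw [COR_B2_inrr]
        exact congrFun (h4 j.1) j.2
    · rintro ⟨g', hg', rfl⟩
      refine ⟨⟨g'.2, fun l => ?_⟩, fun j => ?_, fun i => ?_⟩
      · funext i
        have h2 := congrFun hg' (Sum.inl (l, i))
        rw [COR_B2_inl] at h2
        exact h2
      · have h2 := congrFun hg' (Sum.inr (Sum.inl j))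
        rw [COR_B2_inrl] at h2
        exact h2
      · funext v
        have h2 := congrFun hg' (Sum.inr (Sum.inr (i, v)))
        rw [COR_B2_inrr] at h2
        exact h2
  rw [h1]
  exact (LinearEquiv.finrank_eq (Submodule.equivMapOfInjective _
    (Submodule.injective_subtype _) _))

theorem COR_Dk (c : ι → κ) (A : Finset ι) (d d' : κ → ℕ) (h : ∀ k, 1 ≤ d k) (h' : ∀ k, 1 ≤ d' k) :
    Dk c A d' = Dk c A d := by
  unfold Dk
  have h1 : Finset.univ.filter (fun k => 1 ≤ d' k) = Finset.univ.filter (fun k => 1 ≤ d k) := by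
    ext k
    simp [h k, h' k]
  rw [h1]

end

theorem COR (hRES : RES_stmt) (hTRC : TRC_stmt) (hAHL : AHL_stmt) (hGKR : GKR_stmt)
    (hGAL : GAL_stmt) (hPLY : PLY_stmt) (hONE : ONE_stmt) : COR_stmt := by
  intro ι κ _ _ _ _ c z d r' δ u hcol hk hd1 hd2 htr hT hA1 hA2 hA3
  set A := Finset.univ.erase z with hA
  set d' := low d (c z) with hd'
  have hd'k : ∀ k, k ≠ c z → d' k = d k := by
    intro k hk
    rw [hd', low, Function.update_of_ne hk]
  have hd'z : d' (c z) = d (c z) - 1 := by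
    rw [hd', low, Function.update_self]
  have hd'1 : ∀ k, 1 ≤ d' k := by
    intro k
    by_cases hkz : k = c z
    · rw [hkz, hd'z]; omega
    · rw [hd'k k hkz]; exact hd1 k
  have hDu : Dk c Finset.univ d' = Dk c Finset.univ d := COR_Dk c Finset.univ d d' hd1 hd'1
  have hDA : Dk c A d' = Dk c A d := COR_Dk c A d d' hd1 hd'1
  have hcolu : ∀ k, ∃ i ∈ (Finset.univ : Finset ι), c i = k := by
    intro k
    obtain ⟨i, _, hi⟩ := hcol k
    exact ⟨i, Finset.mem_univ i, hi⟩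
  obtain ⟨k₁, hk₁⟩ := hk
  -- the trace
  obtain ⟨q0, p0, h0⟩ := hTRC c z d u δ hcol ⟨k₁, hd1 k₁⟩ htr hT
  -- the residual system
  have hone1 : dmin (Phi1 c Finset.univ d') 0 r' + r' * Dk c Finset.univ d' =
      finrank ℂ (Sec c Finset.univ d') := by
    rcases Nat.eq_zero_or_pos r' with h | h
    · rw [h, Nat.zero_mul, Nat.add_zero]
      obtain ⟨x, y, hxy⟩ := exists_dmin (Phi1 c Finset.univ d') 0 0
      rw [← hxy]
      have hKer : Ker (Phi1 c Finset.univ d') x y = ⊤ := by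
        rw [eq_top_iff]
        intro v _
        rw [mem_Ker]
        exact ⟨fun i => i.elim0, fun i => i.elim0⟩
      rw [hKer, finrank_top]
    · refine (hONE c Finset.univ d' hcolu ⟨k₁, hd'1 k₁⟩ r').1 h ?_
      rw [hDu]
      exact hA1 h
  have hone2 := (hONE c Finset.univ (low d' (c z)) hcolu ⟨k₁, by
    rw [low, Function.update_of_ne hk₁]
    exact hd'1 k₁⟩ r').2 hA2
  obtain ⟨q1, p1, s1, h1⟩ := hRES c z d' r' δ u hcol ⟨k₁, hk₁⟩ hd'1 hone2 hone1 (by
    rw [hDu, hDA]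
    exact hA3)
  rw [hDu, hDA] at h1
  set K := finrank ℂ (Sec c Finset.univ d') - r' * Dk c Finset.univ d - δ * Dk c A d - u with hK
  -- the three generic properties
  have g1 : Gen (fun Z : COR_W ι u δ r' =>
      finrank ℂ (LinearMap.ker (COR_B1 c A d u δ r' Z)) ≤ 0) := by
    apply hGKR (COR_B1 c A d u δ r') (COR_poly1 hPLY c A d u δ r') 0
    exact ⟨(q0, p0, fun _ => 0), (COR_ker1 c A d u δ r' _).2 h0⟩
  have g2 : Gen (fun Z : COR_W ι u δ r' =>
      finrank ℂ (LinearMap.ker (COR_B2 c A d' u δ r' Z)) ≤ K) := by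
    apply hGKR (COR_B2 c A d' u δ r') (COR_poly2 hPLY c A d' u δ r') K
    refine ⟨(q1, p1, s1), ?_⟩
    rw [hA, COR_ker2]
    exact h1
  have g3 : Gen (fun Z : COR_W ι u δ r' => ∀ l, Z.2.2 l z ≠ 0) := by
    apply hGAL (fun (l : Fin r') (Z : COR_W ι u δ r') => Z.2.2 l z ≠ 0)
    intro l
    refine ⟨⟨(fun _ => 0, fun _ => 0, fun _ _ => 1), one_ne_zero⟩, ?_⟩
    intro Z₀ Z₁ hZ₀
    have hp : PolyFun (fun t : ℂ => (Z₀ + t • (Z₁ - Z₀)).2.2 l z) :=
      COR_line (Z₀.2.2 l z) (Z₁.2.2 l z)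
    have hf := hp.finite_zeros (t₀ := 0) (by
      simpa using hZ₀)
    refine hf.subset ?_
    intro t ht
    simpa using ht
  obtain ⟨⟨Z, ⟨hZ1, hZ2⟩, hZ3⟩, _⟩ := COR_and hGAL (COR_and hGAL g1 g2) g3
  rw [COR_ker1] at hZ1
  rw [hA, COR_ker2] at hZ2
  obtain ⟨x, hx⟩ := hAHL c z d u δ r' K ⟨k₁, hk₁, hd1 k₁⟩ (by omega) Z.1 Z.2.1 Z.2.2 hZ3 hZ1 hZ2
  exact ⟨x, hx⟩

end Pool.Agent.SV
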